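import Mathlib
import Pool.Agent.V8H29.GE5

/-!
# The rational points of the smooth hypersurfaces to which Lang's question reduces

The starting result `SmoothHypersurfacesSuffice` reduces Lang's question on hyperbolic varieties to
smooth hypersurfaces: every projective variety `X` in `P^n` (any dimension and singularities), given
by forms of degree at most `d`, is contained, by the Veronese map `v : P^n → P^N` of degree `d`, in
smooth hypersurfaces

`Y : ∑ t, Q_t(y) (y_0 + t y_1 + ⋯ + t^N y_N)^D = 0`, `Q_t` quadratic forms, `t < N (2 N + 1)`,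

all of whose nonconstant entire curves are in `v(X)`. Here `D` is any large number. We show that over
`ℚ` the hypersurfaces `Y` of this kind can be chosen such that, in addition, all but `O(B^ε)` of the
rational points of height at most `B^d` of `Y` are in `v(X(ℚ))`. So the numbers of rational points of
height at most `B` of `X` and of height at most `B^d` of `Y` satisfy

`N_X(B) ≤ N_Y(B^d) ≤ N_X(B) + C B^ε`.

For arbitrary `ε > 0` and all `D ≥ D₁(n, d, ε)`. In particular the counting functions of smooth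
hypersurfaces of general type are, up to `O(B^ε)`, as complicated as those of arbitrary varieties;
and `Y` is hyperbolic if and only if `X` is hyperbolic.

Method. The form which defines `Y` has, at a rational point of height `B`, coefficients `Q_t(y)` of
polynomial size. The terms split in minimal vanishing partial sums. By the starting theorem `covk` on
sums of high powers of linear forms with coefficients of polynomial size there are only `B^ε`
possibilities for this decomposition together with the ratios of the linear forms in each part. If one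
part has more than `N` terms, these data determine the point. Otherwise there are at least `2 N + 1`
disjoint vanishing partial sums, and for general `Q_t` this happens only on `v(X)`.
-/

set_option autoImplicit false

namespace Pool.Agent.Results.MP_627a61_nt.CountingFunctions

open MvPolynomial
open scoped LinearAlgebra.Projectivization
open Pool.Agent.Results.MP_627a61_nt.SmoothHypersurfacesSuffice

/-- The rational points of height at most `B` of the closed subset of `P^n` given by the forms `F i`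
over `ℚ`; `mulHeight` is the usual height, the largest absolute value of the coordinates for coprime
integers as coordinates. -/
def pointsUpTo {n : ℕ} {ι : Type} (F : ι → MvPolynomial (Fin (n + 1)) ℚ) (B : ℝ) :
    Set (ℙ ℚ (Fin (n + 1) → ℚ)) :=
  {P | P ∈ points F ∧ P.mulHeight ≤ B}

section proof

open Pool.Agent.N254.SQ (Mon ver leaves ver_prop ver_smul ver_ne_zero ver_diff powerSum lin)
open Pool.Agent.V8H29.GE (geo' count compare upTo_finite Blk)

theorem main_part {ε : ℝ} (hε : 0 < ε) (n d : ℕ) (hn : 1 ≤ n) (hd : 3 ≤ d) :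
    ∃ (N : ℕ) (m : Fin (N + 1) → Fin (n + 1) → ℕ), Monomials n N d m ∧
      ∃ D₁ : ℕ, ∀ D, D₁ ≤ D → ∀ (ι : Type) [Finite ι] (F : ι → MvPolynomial (Fin (n + 1)) ℚ),
        (∀ i, ∃ e ≤ d, (F i).IsHomogeneous e) →
        ∃ Q : Fin (N * (2 * N + 1)) → MvPolynomial (Fin (N + 1)) ℚ,
          (∀ t, (Q t).IsHomogeneous 2) ∧ Smooth (powerForm D Q) ∧
          (∀ (Ω : Type) [Field Ω] (τ : ℚ →+* Ω) (x : Fin (n + 1) → Ω),
            (∀ i, eval₂ τ x (F i) = 0) → eval₂ τ (veronese m x) (powerForm D Q) = 0) ∧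
          (∀ σ : ℚ →+* ℂ,
            (∀ f : ℂ → Fin (N + 1) → ℂ, Differentiable ℂ f → (∀ z, f z ≠ 0) →
              (∀ z, eval₂ σ (f z) (powerForm D Q) = 0) → (∀ z w, ∃ c : ℂ, f z = c • f w) ∨
                ∀ z, ∃ x : Fin (n + 1) → ℂ, (∀ i, eval₂ σ x (F i) = 0) ∧ f z = veronese m x) ∧
            (Hyperbolic σ (fun _ : Unit => powerForm D Q) ↔ Hyperbolic σ F)) ∧
          ∃ C : ℝ, ∀ B : ℝ, 1 ≤ B →
            (pointsUpTo F B).Finite ∧
            (pointsUpTo (fun _ : Unit => powerForm D Q) (B ^ d)).Finite ∧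
            (pointsUpTo F B).ncard ≤
              (pointsUpTo (fun _ : Unit => powerForm D Q) (B ^ d)).ncard ∧
            ((pointsUpTo (fun _ : Unit => powerForm D Q) (B ^ d)).ncard : ℝ) ≤
              (pointsUpTo F B).ncard + C * B ^ ε := by
  obtain ⟨D₀, H⟩ := geo' leaves
  obtain ⟨N, m, hm, hnN, H2⟩ := H n d hn hd
  have hd0 : (0 : ℝ) < d := by
    have : 0 < d := by omega
    exact_mod_cast this
  obtain ⟨R, hR⟩ := count N (by omega) (ε / d) (by positivity)
  refine ⟨N, m, ⟨hm.deg, hm.inj, hm.surj⟩, max (D₀ N) R, fun D hD ι _ F hF => ?_⟩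
  choose e he hFe using hF
  obtain ⟨Q, hQ, hsm, hv, hc, hblk⟩ := H2 D ((le_max_left _ _).trans hD) ℚ ι F e hFe he
  have hd1 : 1 ≤ d := by omega
  have hv' : ∀ (Ω : Type) [Field Ω] (τ : ℚ →+* Ω) (x : Fin (n + 1) → Ω),
      (∀ i, eval₂ τ x (F i) = 0) → eval₂ τ (veronese m x) (powerForm D Q) = 0 := by
    intro Ω _ τ x hx
    have h1 := hv Ω τ x (fun i => by rw [eval_map]; exact hx i)
    rw [eval_map] at h1
    exact h1
  have hnc : ∀ {M : ℕ} (f : ℂ → Fin (M + 1) → ℂ), (∀ z, f z ≠ 0) →
      ¬ (∀ z w, ∃ c : ℂ, f z = c • f w) → ∃ i j z w, f z i * f w j ≠ f z j * f w i := by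
    intro M f hf0 h
    by_contra hcon
    push Not at hcon
    apply h
    intro z w
    obtain ⟨j0, hj0⟩ : ∃ j, f w j ≠ 0 := by
      by_contra h2
      push Not at h2
      exact hf0 w (funext h2)
    refine ⟨f z j0 / f w j0, funext fun i => ?_⟩
    rw [Pi.smul_apply, smul_eq_mul, div_mul_eq_mul_div, eq_div_iff hj0]
    exact hcon i j0 z w
  have hcur : ∀ σ : ℚ →+* ℂ, ∀ f : ℂ → Fin (N + 1) → ℂ, Differentiable ℂ f → (∀ z, f z ≠ 0) →
      (∀ z, eval₂ σ (f z) (powerForm D Q) = 0) → ¬ (∀ z w, ∃ c : ℂ, f z = c • f w) →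
      ∀ z, ∃ x : Fin (n + 1) → ℂ, x ≠ 0 ∧ (∀ i, eval₂ σ x (F i) = 0) ∧ f z = ver m x := by
    intro σ f hf hf0 hfA hcon z
    obtain ⟨x, hx, hxF, hfx⟩ := hc σ (fun j z => f z j) (fun j => (differentiable_pi.1 hf) j)
      (fun z => by
        by_contra h2
        push Not at h2
        exact hf0 z (funext h2))
      (fun z => by
        rw [eval_map]
        exact hfA z) (hnc f hf0 hcon) z
    exact ⟨x, hx, fun i => by rw [← eval_map]; exact hxF i, hfx⟩
  refine ⟨Q, hQ, ?_, hv', fun σ => ⟨?_, ?_, ?_⟩, ?_⟩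
  · intro Ω _ τ y hy
    obtain ⟨j, hj⟩ := hsm Ω τ y hy
    refine ⟨j, ?_⟩
    rw [pderiv_map, eval_map] at hj
    exact hj
  · intro f hf hf0 hfA
    by_cases hcon : ∀ z w, ∃ c : ℂ, f z = c • f w
    · exact Or.inl hcon
    · right
      intro z
      obtain ⟨x, -, h1, h2⟩ := hcur σ f hf hf0 hfA hcon z
      exact ⟨x, h1, h2⟩
  · intro h f hf hf0 hfF z w
    obtain ⟨c, hc⟩ := h (fun z => ver m (f z)) (ver_diff hf)
      (fun z => ver_ne_zero hm hd1 (hf0 z)) (fun z _ => hv' ℂ σ (f z) (hfF z)) z w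
    exact ver_prop hm hd1 (hf0 z) hc
  · intro h f hf hf0 hfA
    by_contra hcon
    have hconst : ¬ ∀ z w, ∃ c : ℂ, f w = c • f z := fun h2 => hcon fun z w => h2 w z
    obtain ⟨G, hG, hG0, hGF, hfG⟩ := Pool.Agent.N254.SQ.maps leaves.lift hm hd1
      (fun i => map σ (F i)) e (fun i => (hFe i).map σ) (map σ (powerForm D Q)) (by
        intro g hg hg0 hgA hgn z
        obtain ⟨x, hx, hxF, hgx⟩ := hc σ g hg hg0 hgA hgn z
        exact ⟨x, hx, hxF, hgx⟩) f hf hf0 (fun z => by
        rw [eval_map]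
        exact hfA z ()) hconst
    apply hcon
    intro z w
    obtain ⟨c, hc⟩ := h G hG hG0 (fun z i => by
      rw [← eval_map]
      exact hGF z i) z w
    exact ⟨c ^ d, by rw [hfG, hfG, hc, ver_smul hm]⟩
  · obtain ⟨C, hC⟩ := compare hm hd1 hε F e hFe D Q hQ (fun x hx => hv' ℚ (RingHom.id ℚ) x hx)
      (fun y hy hbl => by
        obtain ⟨𝓑, h1, h2, h3, h4⟩ := hbl
        exact hblk 𝓑 h1 h2 h3 y hy h4)
      (hR D ((le_max_right _ _).trans hD) Q hQ)
    exact ⟨C, fun B hB => ⟨upTo_finite F B, upTo_finite _ _, (hC B hB).1, (hC B hB).2⟩⟩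

end proof

/-- **Smooth hypersurfaces with the rational points of a given variety, up to `O(B ^ ε)`.** -/
theorem result (ε : ℝ) (hε : 0 < ε) (n d : ℕ) (hn : 1 ≤ n) (hd : 3 ≤ d) :
    ∃ (N : ℕ) (m : Fin (N + 1) → Fin (n + 1) → ℕ), Monomials n N d m ∧
      ∃ D₁ : ℕ, ∀ D, D₁ ≤ D → ∀ (ι : Type) [Finite ι] (F : ι → MvPolynomial (Fin (n + 1)) ℚ),
        (∀ i, ∃ e ≤ d, (F i).IsHomogeneous e) →
        ∃ Q : Fin (N * (2 * N + 1)) → MvPolynomial (Fin (N + 1)) ℚ,
          (∀ t, (Q t).IsHomogeneous 2) ∧ Smooth (powerForm D Q) ∧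
          (∀ (Ω : Type) [Field Ω] (τ : ℚ →+* Ω) (x : Fin (n + 1) → Ω),
            (∀ i, eval₂ τ x (F i) = 0) → eval₂ τ (veronese m x) (powerForm D Q) = 0) ∧
          (∀ σ : ℚ →+* ℂ,
            (∀ f : ℂ → Fin (N + 1) → ℂ, Differentiable ℂ f → (∀ z, f z ≠ 0) →
              (∀ z, eval₂ σ (f z) (powerForm D Q) = 0) → (∀ z w, ∃ c : ℂ, f z = c • f w) ∨
                ∀ z, ∃ x : Fin (n + 1) → ℂ, (∀ i, eval₂ σ x (F i) = 0) ∧ f z = veronese m x) ∧
            (Hyperbolic σ (fun _ : Unit => powerForm D Q) ↔ Hyperbolic σ F)) ∧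
          ∃ C : ℝ, ∀ B : ℝ, 1 ≤ B →
            (pointsUpTo F B).Finite ∧
            (pointsUpTo (fun _ : Unit => powerForm D Q) (B ^ d)).Finite ∧
            (pointsUpTo F B).ncard ≤
              (pointsUpTo (fun _ : Unit => powerForm D Q) (B ^ d)).ncard ∧
            ((pointsUpTo (fun _ : Unit => powerForm D Q) (B ^ d)).ncard : ℝ) ≤
              (pointsUpTo F B).ncard + C * B ^ ε :=
  main_part hε n d hn hd

end Pool.Agent.Results.MP_627a61_nt.CountingFunctions
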