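import Mathlib
import Pool.Agent.V8H29.SV3

/-!
# Short sums of `S`-units on arbitrary projective varieties, uniformly in the variety

Let `K` be a number field, `Γ ⊆ Kˣ` a finitely generated group and `n`, `d`, `r` integers. There are
constants `C` and `L` such that the following holds for EVERY projective variety `X ⊆ ℙ^n` over `K`,
given by a set `FF` of forms of degree at most `d` and height at most `h`, and for ALL vectors
`v_1, …, v_r` over `K` and all `u_1, …, u_r ∈ Γ` such that `x = ∑ u_j v_j` is a zero of `FF`. Write
`B = C (1 + h + h(v))`, where `h(v)` is the height of the point whose homogeneous coordinates are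
all the coordinates of the `v_j`.

There are a subtorus `T` of `𝔾_m^r`, cut out by characters `t ^ γ = 1` with `∑ γ_j = 0` and
`|γ_j| ≤ L` (so that only finitely many `T` occur for all `X`), and `u' ∈ Γ^r` of height at most `B`,
with `u ∈ T u'`, such that the whole orbit `{∑ t_j u_j v_j : t ∈ T}` is contained in `X`; it
contains `x` and the point `∑ u'_j v_j` of small height. If `x ≠ 0` then either `h(x) ≤ B`, or `T`
moves `x` in projective space, so that the orbit contains a nonconstant rational curve
`τ ↦ ∑ τ ^ (l_j) u_j v_j` through `x`, with `l_j ≤ L`.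

Hence, if `x ≠ 0` and `X` is Brody (equivalently Kobayashi) hyperbolic for one embedding of `K` in
`ℂ`, then `h(x) ≤ B`, with the same constant `C` for all hyperbolic `X`.

Method: along a sequence of counterexamples (with varying `X`, `v`, `u`) and a nonprincipal
ultrafilter, the sequences in `K` of height `o(B)` form a field which contains the coefficients of
the (normalised) equations of `X`. The equations of `X` at `x` are vanishing sums of units with
coefficients in this field, and by the Subspace Theorem with moving targets (in the starting library)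
they split according to the classes of the monomials in the `u_j` modulo the saturated lattice of the
`γ` with `∑ γ_j = 0` and `u ^ γ` small; this lattice defines `T`, and a projection of `ℤ^r` onto it
defines `u'`.
-/

set_option autoImplicit false

namespace Pool.Agent.Results.MP_627a61_nt.MovingTorusOrbits

open Height MvPolynomial Pool.Agent.H458.Sp Pool.Agent.V8H29.SV

theorem result (K : Type) [Field K] [NumberField K] (Γ : Subgroup Kˣ) (hΓ : Γ.FG) (n d r : ℕ) :
    ∃ (C : ℝ) (L : ℕ), ∀ (FF : Set (MvPolynomial (Fin (n + 1)) K)) (h : ℝ), 0 ≤ h →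
      Forms d h FF → ∀ (v : Fin r → Fin (n + 1) → K) (u : Fin r → Kˣ), (∀ j, u j ∈ Γ) →
      (∀ F ∈ FF, aeval (pt v u) F = 0) →
      TorusStructure Γ FF v u (C * scale h v) L ∧
      (pt v u ≠ 0 → ∀ σ : K →+* ℂ, BrodyHyperbolic ((MvPolynomial.map σ) '' FF) →
        logHeight (pt v u) ≤ C * scale h v) := by
  obtain ⟨C, L, h₁⟩ := torusStructure K Γ hΓ n d r
  refine ⟨C, L, fun FF h hh hFF v u hu hz => ⟨h₁ FF h hh hFF v u hu hz, fun hx σ hyp => ?_⟩⟩
  obtain ⟨S, u', -, -, -, -, horb, hc⟩ := h₁ FF h hh hFF v u hu hz
  rcases hc hx with h3 | ⟨l, -, hl, h4⟩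
  · exact h3
  · exact absurd h4 (brody_noCurve σ FF (fun F hF => by
      obtain ⟨⟨e, -, he⟩, -⟩ := hFF F hF
      exact ⟨e, he⟩) hyp _ (fun F hF => curve_mem FF v u S horb l hl F hF))

end Pool.Agent.Results.MP_627a61_nt.MovingTorusOrbits
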