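import Mathlib
import Pool.Agent.V8H29.PP2

/-!
# Rational points on the Fermat covers of arbitrary hyperbolic varieties

Let `X` be a closed subvariety of projective `n`-space over `ℚ`, given by any set of forms of degree
at most `D` with integer coefficients of absolute value at most `exp (Y ^ δ)`, and let
`R ≤ r ≤ Y ^ δ`. We consider all the points of `X` of the form
`[s_0 u_0 ^ r : … : s_n u_n ^ r]` with integers `|u_i| ≤ Y` and `0 < |s_i| ≤ Y ^ E`. In other
words, `u` is a rational point of height at most `Y` on the finite cover of `X` which is its inverse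
image under the map `[u] ↦ [s u ^ r]`; for the different `s` these covers are twists of one of them.

* If `X` is Brody (equivalently Kobayashi) hyperbolic, then all these covers of `X` together have at
  most `Y ^ ε` rational points `u` of height at most `Y`.
* If `X` is arbitrary, the same is true for the points which do not lie on a curve
  `τ ↦ [x_i τ ^ (a_i)]` in `X` (an orbit of a one-parameter group).

Here `R` and `δ > 0` depend only on `n`, `D`, `E` and `ε > 0`, and not on `X` or `r`.

Method: for each equation of `X` the monomials in `u` are the coordinates of a rational point of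
polynomial height on a hypersurface `∑ c_α s ^ α z_α ^ r = 0`. By the theorem of the starting library
on sums of powers (`Pool.Agent.Y902.GN.cov`) these points lie on few linear spaces contained in such
hypersurfaces. If two essentially different points `u`, `u'` give points in the same linear spaces,
a Vandermonde argument shows that the orbit of `s u ^ r` under the one-parameter group, whose
exponents are the valuations of the ratios `u'_i / u_i` at a suitable prime, is contained in `X`.
-/

set_option autoImplicit false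

namespace Pool.Agent.Results.MP_627a61_nt.PowerPoints

open MvPolynomial Finset

variable {n : ℕ}

/-- every holomorphic map from `ℂ` to the projective variety given by the forms in `FF` is constant
(such a map is given by holomorphic homogeneous coordinates without common zeros) -/
def BrodyHyperbolic (FF : Set (MvPolynomial (Fin (n + 1)) ℤ)) : Prop :=
  ∀ f : ℂ → Fin (n + 1) → ℂ, (∀ j, Differentiable ℂ fun z => f z j) → (∀ z, f z ≠ 0) →
    (∀ z, ∀ F ∈ FF, eval₂ (Int.castRingHom ℂ) (f z) F = 0) → ∀ z w, ∃ c : ℂ, f z = c • f w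

/-- the point `x` lies on a nonconstant curve `τ ↦ [x_i τ ^ (a_i)]` which is contained in the
variety given by the forms in `FF` -/
def OnOrbit (FF : Set (MvPolynomial (Fin (n + 1)) ℤ)) (x : Fin (n + 1) → ℤ) : Prop :=
  ∃ a : Fin (n + 1) → ℤ, (∃ i j, x i ≠ 0 ∧ x j ≠ 0 ∧ a i ≠ a j) ∧ ∀ τ : ℂ, τ ≠ 0 →
    ∀ F ∈ FF, eval₂ (Int.castRingHom ℂ) (fun i => (x i : ℂ) * τ ^ a i) F = 0

/-- the primitive integer vectors `u` with `|u i| ≤ Y` (every rational point of height at most `Y`
is given by two of them) such that, for some integers `0 < |s i| ≤ Y ^ E`, the point with the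
coordinates `s i * u i ^ r` is on the variety given by the forms in `FF` and has the property `Q` -/
def CoverPoints (E Y r : ℕ) (FF : Set (MvPolynomial (Fin (n + 1)) ℤ))
    (Q : (Fin (n + 1) → ℤ) → Prop) : Set (Fin (n + 1) → ℤ) :=
  {u | univ.gcd u = 1 ∧ (∀ i, |u i| ≤ (Y : ℤ)) ∧ ∃ s : Fin (n + 1) → ℤ,
    (∀ i, s i ≠ 0 ∧ |s i| ≤ (Y : ℤ) ^ E) ∧
    (∀ F ∈ FF, eval (fun i => s i * u i ^ r) F = 0) ∧ Q (fun i => s i * u i ^ r)}

/-- the exponents of the monomials -/
noncomputable def expo (n D : ℕ) (k : Fin (Fintype.card (Fin (n + 1) → Fin (D + 1)))) :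
    Fin (n + 1) → ℕ := fun i => ((Fintype.equivFin (Fin (n + 1) → Fin (D + 1))).symm k i : ℕ)

theorem expo_le (n D : ℕ) (k : Fin (Fintype.card (Fin (n + 1) → Fin (D + 1)))) (i : Fin (n + 1)) :
    expo n D k i ≤ D := Nat.lt_succ_iff.1 (Fin.is_lt _)

/-- the coefficients of a form -/
noncomputable def cf (n D : ℕ) (F : MvPolynomial (Fin (n + 1)) ℤ)
    (k : Fin (Fintype.card (Fin (n + 1) → Fin (D + 1)))) : ℤ :=
  F.coeff (Finsupp.equivFunOnFinite.symm (expo n D k))

theorem eval₂_cf {R : Type} [CommRing R] (f : ℤ →+* R) (x : Fin (n + 1) → R) (D : ℕ)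
    (F : MvPolynomial (Fin (n + 1)) ℤ) {e : ℕ} (he : e ≤ D) (hF : F.IsHomogeneous e) :
    eval₂ f x F = ∑ k, f (cf n D F k) * Pool.Agent.V8H29.PP.mon (expo n D) x k := by
  classical
  set g : (Fin (n + 1) →₀ ℕ) → R := fun d => f (F.coeff d) * ∏ i, x i ^ d i with hg
  set T : (Fin (n + 1) → Fin (D + 1)) → (Fin (n + 1) →₀ ℕ) :=
    fun α => Finsupp.equivFunOnFinite.symm fun i => (α i : ℕ) with hT
  have hTinj : Function.Injective T := by
    intro α β h
    funext i
    have := DFunLike.congr_fun h i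
    simp only [hT, Finsupp.coe_equivFunOnFinite_symm] at this
    exact Fin.ext this
  have h1 : ∑ k, f (cf n D F k) * Pool.Agent.V8H29.PP.mon (expo n D) x k = ∑ α, g (T α) := by
    rw [← Equiv.sum_comp (Fintype.equivFin (Fin (n + 1) → Fin (D + 1))).symm]
    refine Finset.sum_congr rfl fun k _ => ?_
    rfl
  rw [h1, MvPolynomial.eval₂_eq']
  rw [← Finset.sum_image (s := univ) (f := g) (g := T) (fun α _ β _ h => hTinj h)]
  refine Finset.sum_subset ?_ ?_
  · intro d hd
    rw [Finset.mem_image]
    have hdeg : ∑ i, d i = e := by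
      have h2 := hF (MvPolynomial.mem_support_iff.1 hd)
      rw [Finsupp.weight_apply, Finsupp.sum_fintype _ _ (by simp)] at h2
      simpa using h2
    refine ⟨fun i => ⟨d i, ?_⟩, mem_univ _, ?_⟩
    · have : d i ≤ ∑ i, d i := Finset.single_le_sum (fun _ _ => Nat.zero_le _) (mem_univ i)
      omega
    · ext i
      simp [hT]
  · intro d _ hd
    rw [MvPolynomial.notMem_support_iff] at hd
    simp only [hd, map_zero, zero_mul]

/-- a hyperbolic variety contains no orbits -/
theorem not_onOrbit {FF : Set (MvPolynomial (Fin (n + 1)) ℤ)} (h : BrodyHyperbolic FF)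
    (x : Fin (n + 1) → ℤ) : ¬ OnOrbit FF x := by
  rintro ⟨a, ⟨i, j, hi, hj, hij⟩, ho⟩
  have hiC : (x i : ℂ) ≠ 0 := by exact_mod_cast hi
  have hjC : (x j : ℂ) ≠ 0 := by exact_mod_cast hj
  obtain ⟨c, hc⟩ := h (fun z k => (x k : ℂ) * Complex.exp ((a k : ℂ) * z)) (fun k => by fun_prop)
    (fun z hz => by
      have := congrFun hz i
      simp only [Pi.zero_apply, mul_eq_zero, Complex.exp_ne_zero, or_false] at this
      exact hiC this)
    (fun z F hF => by
      have h1 := ho (Complex.exp z) (Complex.exp_ne_zero z) F hF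
      convert h1 using 3 with k
      rw [← Complex.exp_int_mul])
    1 0
  have h1 := congrFun hc i
  have h2 := congrFun hc j
  simp only [mul_one, Pi.smul_apply, mul_zero, Complex.exp_zero, smul_eq_mul] at h1 h2
  have h3 : Complex.exp (a i : ℂ) = c := mul_left_cancel₀ hiC (by rw [h1, mul_comm])
  have h4 : Complex.exp (a j : ℂ) = c := mul_left_cancel₀ hjC (by rw [h2, mul_comm])
  have h5 : Complex.exp ((a i : ℝ) : ℂ) = Complex.exp ((a j : ℝ) : ℂ) := by
    push_cast
    rw [h3, h4]
  rw [← Complex.ofReal_exp, ← Complex.ofReal_exp] at h5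
  have h6 := Real.exp_injective (Complex.ofReal_injective h5)
  exact hij (by exact_mod_cast h6)

/-- **Rational points on the Fermat covers of arbitrary (hyperbolic) varieties.** -/
theorem result (n D E : ℕ) (ε : ℝ) (hε : 0 < ε) : ∃ (R : ℕ) (δ : ℝ), 0 < δ ∧
    ∀ (Y r : ℕ) (FF : Set (MvPolynomial (Fin (n + 1)) ℤ)), 1 ≤ Y → R ≤ r →
      (r : ℝ) ≤ (Y : ℝ) ^ δ →
      (∀ F ∈ FF, (∃ e ≤ D, F.IsHomogeneous e) ∧
        ∀ α, ((|F.coeff α| : ℤ) : ℝ) ≤ Real.exp ((Y : ℝ) ^ δ)) →
      -- a hyperbolic variety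
      (BrodyHyperbolic FF → (CoverPoints E Y r FF fun _ => True).Finite ∧
        ((CoverPoints E Y r FF fun _ => True).ncard : ℝ) ≤ (Y : ℝ) ^ ε) ∧
      -- an arbitrary variety
      (CoverPoints E Y r FF fun x => ¬ OnOrbit FF x).Finite ∧
        ((CoverPoints E Y r FF fun x => ¬ OnOrbit FF x).ncard : ℝ) ≤ (Y : ℝ) ^ ε := by
  obtain ⟨R, δ, hδ, H⟩ := Pool.Agent.V8H29.PP.main (expo n D) D E (expo_le n D) ε hε
  refine ⟨R, δ, hδ, fun Y r FF hY hr hrY hFF => ?_⟩
  have h1 := H Y r {c | ∃ F ∈ FF, c = cf n D F} hY hr hrY (by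
    rintro _ ⟨F, hF, rfl⟩ a
    exact (hFF F hF).2 _)
  have horb : ∀ x : Fin (n + 1) → ℤ,
      Pool.Agent.V8H29.PP.OnOrb (expo n D) {c | ∃ F ∈ FF, c = cf n D F} x ↔ OnOrbit FF x := by
    intro x
    unfold Pool.Agent.V8H29.PP.OnOrb OnOrbit
    refine exists_congr fun a => and_congr Iff.rfl (forall_congr' fun τ => forall_congr' fun _ => ?_)
    constructor
    · intro h F hF
      obtain ⟨⟨e, he, hhom⟩, -⟩ := hFF F hF
      rw [eval₂_cf _ _ D F he hhom]
      exact h _ ⟨F, hF, rfl⟩
    · rintro h _ ⟨F, hF, rfl⟩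
      obtain ⟨⟨e, he, hhom⟩, -⟩ := hFF F hF
      have := h F hF
      rw [eval₂_cf _ _ D F he hhom] at this
      exact this
  have hset : Pool.Agent.V8H29.PP.Bad (expo n D) E Y r {c | ∃ F ∈ FF, c = cf n D F} =
      CoverPoints E Y r FF fun x => ¬ OnOrbit FF x := by
    ext u
    unfold Pool.Agent.V8H29.PP.Bad CoverPoints
    simp only [Set.mem_ofPred_eq]
    refine and_congr Iff.rfl (and_congr Iff.rfl (exists_congr fun s => and_congr Iff.rfl ?_))
    rw [horb]
    refine and_congr ?_ Iff.rfl
    constructor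
    · intro h F hF
      obtain ⟨⟨e, he, hhom⟩, -⟩ := hFF F hF
      have h2 := eval₂_cf (RingHom.id ℤ) (fun i => s i * u i ^ r) D F he hhom
      rw [MvPolynomial.eval₂_id] at h2
      rw [h2]
      exact h _ ⟨F, hF, rfl⟩
    · rintro h _ ⟨F, hF, rfl⟩
      obtain ⟨⟨e, he, hhom⟩, -⟩ := hFF F hF
      have h2 := eval₂_cf (RingHom.id ℤ) (fun i => s i * u i ^ r) D F he hhom
      rw [MvPolynomial.eval₂_id, h F hF] at h2
      exact h2.symm
  rw [hset] at h1
  refine ⟨fun hhyp => ?_, h1⟩
  have hset2 : (CoverPoints E Y r FF fun _ => True) =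
      CoverPoints E Y r FF fun x => ¬ OnOrbit FF x := by
    ext u
    unfold CoverPoints
    simp only [Set.mem_ofPred_eq]
    refine and_congr Iff.rfl (and_congr Iff.rfl (exists_congr fun s => and_congr Iff.rfl
      (and_congr Iff.rfl ?_)))
    exact ⟨fun _ => not_onOrbit hhyp _, fun _ => trivial⟩
  rw [hset2]
  exact h1

end Pool.Agent.Results.MP_627a61_nt.PowerPoints
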