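import Mathlib
import Pool.Agent.V8H29.SU6

/-!
# Heights of rational points on hyperbolic varieties which are short sums of `S`-units

Let `X` be a closed subvariety of projective `n`-space over a number field `k`, given by any set
`FF` of forms with coefficients in `𝓞 k`.

(a) If `X` is Brody (equivalently Kobayashi) hyperbolic for one embedding of `k` in `ℂ`, then `X`
has no nonconstant rational curve over any number field `K ⊇ k`.

(b) If `X` has no such curve, then for every number field `K ⊇ k`, every finitely generated group
`Γ ⊆ Kˣ` and every `r` there is a constant `C` such that for ALL vectors `v_1, …, v_r` over `K` and
all `u_1, …, u_r ∈ Γ`: if the point `x = ∑ u_j v_j ≠ 0` lies on `X`, then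

  `h(x) ≤ C (1 + h(v))`

where `h` is the logarithmic height and `h(v)` is the height of the point whose homogeneous
coordinates are all the coordinates of the `v_j`.  So a rational point of large height of a
hyperbolic variety is not a short sum of `S`-unit multiples of vectors of small height: the height
of the vectors is at least a positive constant times the height of the point.

(c) The bound (b), the finiteness of the set of these points for `v` of bounded height, and the
finiteness for each fixed `v` are each equivalent to the absence of rational curves.

For a fixed `v`, or `v` of bounded height, finiteness follows from Laurent's theorem; the linear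
bound for varying `v` does not.

Method: along a sequence of counterexamples and a nonprincipal ultrafilter, the elements of `K` of
height `o(h(x))` form a field, the equations of `X` at `x` are vanishing sums of units with
coefficients in this field, and by the Subspace Theorem with moving targets (in the starting library)
they split according to the classes of the monomials in the `u_j` modulo that field. The classes are
separated by integer weights `l_j`, so that `∑ u_j v_j T ^ (l_j)` is a rational curve in `X` through
`x`; as it is constant, the ratios of the coordinates of `x` have height `o(h(x))`.
-/

set_option autoImplicit false

namespace Pool.Agent.Results.MP_627a61_nt.SUnitSumHeights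

open NumberField MvPolynomial Pool.Agent.H458.Sp Pool.Agent.TH409.SH Pool.Agent.V8H29.SU

theorem result (k : Type) [Field k] [NumberField k] (n : ℕ)
    (FF : Set (MvPolynomial (Fin (n + 1)) (𝓞 k))) (hom : ∀ F ∈ FF, ∃ e, F.IsHomogeneous e) :
    (∀ σ : k →+* ℂ,
      BrodyHyperbolic ((MvPolynomial.map (σ.comp (algebraMap (𝓞 k) k))) '' FF) →
      NoRatCurve FF) ∧
    [NoRatCurve FF, LinBound FF, BddFinite FF, FixedFinite FF].TFAE :=
  ⟨fun σ hyp => brody_noRat σ FF hom hyp, tfae FF hom⟩

end Pool.Agent.Results.MP_627a61_nt.SUnitSumHeights
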